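import Pool.Agent.H24.SAi

open Pool.Agent.H24.SA2

namespace Pool.Agent.Results.MP_fdf3ca_an.Spaceable

/-- Q1: the strongly annular functions are spaceable in `H(𝔻)`.
Q2: for all `0 < p < ∞` and `α > -1` they are spaceable in the weighted Bergman space `B^p_α`. -/
theorem result :
    (∃ M : Submodule ℂ (ℂ → ℂ), (M : Set (ℂ → ℂ)) ⊆ HolD ∧ ClosedInHolD M ∧
      ¬ Module.Finite ℂ M ∧ ∀ f ∈ M, f ≠ 0 → StronglyAnnular f) ∧
    ∀ p α : ℝ, 0 < p → -1 < α → ∃ M : Submodule ℂ (ℂ → ℂ), (M : Set (ℂ → ℂ)) ⊆ Bergman p α ∧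
      ClosedInBergman p α M ∧ ¬ Module.Finite ℂ M ∧ ∀ f ∈ M, f ≠ 0 → StronglyAnnular f :=
  ⟨Pool.Agent.H24.SA.final1, Pool.Agent.H24.SA.final2⟩

end Pool.Agent.Results.MP_fdf3ca_an.Spaceable
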